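import Pool.Agent.Run7.h271.CC.Fin

/-!
# The Sato-Tate law for the primes in Frobenius classes and in residue classes

`K` is a number field, `ρ` a representation of `Gal(K̄/K)` embedded in `GL_{2g}(ℂ)` by `ι`, for
instance a member of a compatible family of odd weight as in the problem, after a Tate twist to weight
one. `C` is a Sato-Tate group of `ρ`, `x v ∈ C` is in the class of the prime `v`, and `σ v` is a
Frobenius element at `v`.

Every open normal subgroup `U` of `Gal(K̄/K)`, in other words every finite Galois extension of `K`,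
gives a partition of the primes in Frobenius classes. Parts (1), (2) and (3) compare, without any
hypothesis, the mean values of `f (x v)` over the primes in the Frobenius classes of a family of
disjoint extensions, and over the primes in the residue classes modulo `p` for the different `p`, with
the mean value over all primes. By (4) and (5) the Sato-Tate law for the primes in one Frobenius class
of each one of many disjoint extensions, or in one residue class modulo each one of many primes,
implies the Sato-Tate law for all primes.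
-/

set_option autoImplicit false
set_option linter.style.haveILetI false

namespace Pool.Agent.Results.MP_4c4ce6_nt.ChebotarevClasses

open Pool.Agent.K4H40.ST Pool.Agent.Run7.h271.CC
open NumberField IsDedekindDomain Filter Topology MeasureTheory

/-- The Sato-Tate law for the representation `r` and the primes in the set `S`. This is the definition
of `SatoTate`, with mean values over the primes in `S`. -/
def SatoTateOn (F Ω : Type) [Field F] [NumberField F] [Field Ω] [Algebra F Ω] {g : ℕ}
    (S : Set (HeightOneSpectrum (𝓞 F))) (r : Gal(Ω/F) →* GL (Fin g ⊕ Fin g) ℂ) : Prop :=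
  ∀ C : Subgroup (GL (Fin g ⊕ Fin g) ℂ), IsSatoTateGroup r C →
  ∀ x : HeightOneSpectrum (𝓞 F) → C, IsClassSystem F Ω r C x →
  ∀ [MeasurableSpace C] [BorelSpace C] (μ : Measure C) [IsProbabilityMeasure μ]
    [μ.IsMulLeftInvariant],
  ∀ f : C → ℂ, Continuous f → (∀ c h, f (h * c * h⁻¹) = f c) →
    Tendsto (avgOn F S fun v => f (x v)) atTop (𝓝 (∫ c, f c ∂μ))

theorem result (K : Type) [Field K] [NumberField K] :
    ∃ m : ℕ, m ≠ 0 ∧ ∀ {g : ℕ} {R : Type} [CommRing R]
      (ρ : Gal(AlgebraicClosure K/K) →* GL (Fin g ⊕ Fin g) R) (ι : R →+* ℂ)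
      (σ : HeightOneSpectrum (𝓞 K) → Gal(AlgebraicClosure K/K)),
      (∀ v, IsFrob K (AlgebraicClosure K) v (σ v)) →
      (∀ C : Subgroup (GL (Fin g ⊕ Fin g) ℂ), IsSatoTateGroup (extend ρ ι) C →
        ∀ x : HeightOneSpectrum (𝓞 K) → C,
          IsClassSystem K (AlgebraicClosure K) (extend ρ ι) C x →
        ∀ (f : C → ℂ), Continuous f → ∀ (B : ℝ), (∀ c, ‖f c‖ ≤ B) →
        -- (1) the mean square of the differences over disjoint extensions
        (∀ (I : Type) [Fintype I] (U : I → Subgroup Gal(AlgebraicClosure K/K)) [∀ i, (U i).Normal],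
          (∀ i, IsOpen (U i : Set Gal(AlgebraicClosure K/K))) → (∀ i j, i ≠ j → U i ⊔ U j = ⊤) →
          ∀ ε : ℝ, 0 < ε → ∀ᶠ N in atTop, ∑ i, dev σ (U i) (fun v => f (x v)) N ≤
            (avg K (fun v => ((‖f (x v)‖ ^ 2 : ℝ) : ℂ)) N).re -
              ‖avg K (fun v => f (x v)) N‖ ^ 2 + ε) ∧
        -- (2) the extensions with a large difference along an ultrafilter
        (∀ (I : Type) (U : I → Subgroup Gal(AlgebraicClosure K/K)) [∀ i, (U i).Normal],
          (∀ i, IsOpen (U i : Set Gal(AlgebraicClosure K/K))) → (∀ i j, i ≠ j → U i ⊔ U j = ⊤) →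
          ∀ 𝒰 : Ultrafilter ℕ, (𝒰 : Filter ℕ) ≤ atTop → ∀ δ : ℝ, 0 < δ →
          {i : I | ∀ᶠ N in (𝒰 : Filter ℕ), δ ^ 2 < dev σ (U i) (fun v => f (x v)) N}.encard ≤
            (⌊B ^ 2 / δ ^ 2⌋₊ : ℕ)) ∧
        -- (3) the moduli with a large difference along an ultrafilter
        (∀ 𝒰 : Ultrafilter ℕ, (𝒰 : Filter ℕ) ≤ atTop → ∀ δ : ℝ, 0 < δ →
          {p : ℕ | p.Prime ∧ ¬ p ∣ m ∧
            ∀ᶠ N in (𝒰 : Filter ℕ), δ ^ 2 < devMod K p (fun v => f (x v)) N}.encard ≤
              (⌊B ^ 2 / δ ^ 2⌋₊ : ℕ))) ∧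
      -- (4) one Frobenius class of each of many disjoint extensions is enough
      (∀ (I : Type) (U : I → Subgroup Gal(AlgebraicClosure K/K)) [∀ i, (U i).Normal]
        (γ : ∀ i, Gal(AlgebraicClosure K/K) ⧸ U i),
        (∀ i, IsOpen (U i : Set Gal(AlgebraicClosure K/K))) → (∀ i j, i ≠ j → U i ⊔ U j = ⊤) →
        (¬ Summable fun i =>
          (Nat.card {h : Gal(AlgebraicClosure K/K) ⧸ U i // _root_.IsConj (γ i) h} : ℝ) /
            (Nat.card (Gal(AlgebraicClosure K/K) ⧸ U i) : ℝ)) →
        (∀ i, SatoTateOn K (AlgebraicClosure K) (frobClass σ (U i) (γ i)) (extend ρ ι)) →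
        SatoTate K (AlgebraicClosure K) (extend ρ ι)) ∧
      -- (5) one residue class for each of many primes is enough
      (∀ (I : Type) (p : I → ℕ), Function.Injective p → (∀ i, (p i).Prime) →
        ∀ a : (∀ i, (ZMod (p i))ˣ), (¬ Summable fun i => ((p i : ℕ) : ℝ)⁻¹) →
        (∀ i, SatoTateOn K (AlgebraicClosure K)
          {v | ((Ideal.absNorm v.asIdeal : ℕ) : ZMod (p i)) = (a i : ZMod (p i))} (extend ρ ι)) →
        SatoTate K (AlgebraicClosure K) (extend ρ ι)) := by
  classical
  obtain ⟨m, hm, hmp⟩ := exists_mod K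
  refine ⟨m, hm, ?_⟩
  intro g R _ ρ ι σ hσ
  refine ⟨?_, ?_, ?_⟩
  · intro C _ x _ f _ B hB
    have hB' : ∀ v, ‖f (x v)‖ ≤ B := fun v => hB _
    refine ⟨?_, ?_, ?_⟩
    · intro I _ U _ hU hdis ε hε
      exact sum_dev σ hσ U hU hdis (fun v => f (x v)) B hB' ε hε
    · intro I U _ hU hdis 𝒰 h𝒰 δ hδ
      refine few_dev σ hσ U hU hdis (fun v => f (x v)) B hB' 𝒰 h𝒰 δ hδ _ fun i hi ε hε => ?_
      filter_upwards [hi] with N hN
      linarith
    · intro 𝒰 h𝒰 δ hδ
      -- the primes not dividing `m`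
      let J : Type := {p : ℕ // p.Prime ∧ ¬ p ∣ m}
      have h1 := few_dev σ hσ (fun j : J => Hm K j.1) (fun j => Hm_open j.2.1.ne_zero)
        (fun i j hij => (hmp i.1 i.2.1 i.2.2).2 j.1 j.2.1 j.2.2 fun h => hij (Subtype.ext h))
        (fun v => f (x v)) B hB' 𝒰 h𝒰 δ hδ
        {j : J | ∀ᶠ N in (𝒰 : Filter ℕ), δ ^ 2 < devMod K j.1 (fun v => f (x v)) N} ?_
      · refine le_trans (le_of_eq ?_) h1
        rw [← (Subtype.val_injective (p := fun p : ℕ => p.Prime ∧ ¬ p ∣ m)).encard_image]
        congr 1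
        ext p
        constructor
        · rintro ⟨hp, hpm, h⟩
          exact ⟨⟨p, hp, hpm⟩, h, rfl⟩
        · rintro ⟨j, hj, rfl⟩
          exact ⟨j.2.1, j.2.2, hj⟩
      · intro j hj ε hε
        have h2 := devMod_sub σ hσ j.2.1 (hmp j.1 j.2.1 j.2.2).1 (fun v => f (x v)) B hB'
        have h3 := (h2.eventually (lt_mem_nhds (neg_lt_zero.2 hε))).filter_mono h𝒰
        filter_upwards [h3, hj] with N h4 h5
        linarith
  · intro I U _ γ hU hdis hsum hST
    intro C hC x hx _ _ μ _ _ f hf hcf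
    haveI : CompactSpace C := isCompact_iff_compactSpace.mp hC.compact
    obtain ⟨B, hB⟩ := isCompact_univ.exists_bound_of_continuousOn hf.continuousOn
    have hB' : ∀ v, ‖f (x v)‖ ≤ B := fun v => hB _ trivial
    haveI : ∀ i, Finite (Gal(AlgebraicClosure K/K) ⧸ U i) :=
      fun i => Subgroup.quotient_finite_of_isOpen _ (hU i)
    letI : ∀ i, Fintype (Gal(AlgebraicClosure K/K) ⧸ U i) := fun i => Fintype.ofFinite _
    refine descent σ hσ U hU hdis γ ?_ (fun v => f (x v)) B hB' _ fun i => ?_
    · intro h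
      apply hsum
      refine h.congr fun i => ?_
      rw [wt_eq]
    · refine (hST i C hC x hx μ f hf hcf).congr fun N => ?_
      rw [Ec_frob]
  · intro I p hinj hp a hsum hST
    intro C hC x hx _ _ μ _ _ f hf hcf
    haveI : CompactSpace C := isCompact_iff_compactSpace.mp hC.compact
    obtain ⟨B, hB⟩ := isCompact_univ.exists_bound_of_continuousOn hf.continuousOn
    have hB' : ∀ v, ‖f (x v)‖ ≤ B := fun v => hB _ trivial
    exact descent_mod σ hσ p hinj hp a hsum (fun v => f (x v)) B hB' _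
      fun i => hST i C hC x hx μ f hf hcf

end Pool.Agent.Results.MP_4c4ce6_nt.ChebotarevClasses
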